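import Pool.Agent.Lib.MP_688fd0_co.TF.Defs
import Pool.Agent.Lib.MP_688fd0_co.TE.H54.Har

/-!
# Theorem F: module COREF (existence of the context)
-/

namespace Pool.Agent.Lib.MP_688fd0_co.TF.H54

open Pool.Agent.Lib.MP_688fd0_co.TE
open Pool.Agent.Lib.MP_688fd0_co.TE.H54

universe u

/-- If `10 ^ 9 * log L ≤ L` and `L ≥ 1.098` then `L` is large. -/
theorem large_of (L : ℝ) (h0 : (1098 / 1000 : ℝ) ≤ L) (h : 10 ^ 9 * Real.log L ≤ L) :
    2 * 10 ^ 10 ≤ L ∧ 23 ≤ Real.log L := by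
  have hL0 : 0 < L := by linarith
  have h2 := Real.log_two_gt_d9
  have key : ∀ m : ℕ, (2 : ℝ) ^ m ≤ L → (m : ℝ) * (69 / 100) ≤ Real.log L := by
    intro m hm
    have h1 : Real.log ((2 : ℝ) ^ m) ≤ Real.log L := Real.log_le_log (by positivity) hm
    rw [Real.log_pow] at h1
    refine le_trans ?_ h1
    apply mul_le_mul_of_nonneg_left _ (Nat.cast_nonneg _)
    norm_num at h2 ⊢
    linarith
  have h3 : (8 * 10 ^ 7 : ℝ) ≤ L := by
    have h4 := Real.one_sub_inv_le_log_of_pos hL0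
    have h5 : L⁻¹ ≤ (1098 / 1000 : ℝ)⁻¹ := inv_anti₀ (by norm_num) h0
    norm_num at h5 h ⊢
    linarith
  have h4 := key 26 (by norm_num at h3 ⊢; linarith)
  have h5 : (10 ^ 10 * (179 / 100) : ℝ) ≤ L := by
    norm_num at h4 h ⊢
    linarith
  have h6 := key 34 (by norm_num at h5 ⊢; linarith)
  constructor
  · norm_num at h6 h ⊢
    linarith
  · norm_num at h6 ⊢
    linarith

/-- COREF. -/
theorem coref (hM : MAT_S.{u}) (hL : LOGC_S.{u}) (hR : RUP_S.{u}) (hT : TYP_S.{u})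
    (hH : HARF_S.{u}) (hG : GEN_S.{u}) (hCh : CHOICEF_S.{u}) : COREF_S.{u} := by
  intro G _ _ _ A hn3 hAinv hA1 hAgen hAc
  set n : ℝ := (Fintype.card G : ℝ) with hnd
  have hn3' : (3 : ℝ) ≤ n := by rw [hnd]; exact_mod_cast hn3
  have hn0 : 0 < n := by linarith
  set L : ℝ := Real.log n with hLd
  have hL1 : (1098 / 1000 : ℝ) ≤ L := by
    have h1 : Real.log 3 ≤ L := Real.log_le_log (by norm_num) hn3'
    have h2 : (1098 / 1000 : ℝ) ≤ Real.log 3 := by
      have h3 : Real.exp (1098 / 1000) ≤ 3 := by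
        have h4 : Real.exp (1098 / 1000) = Real.exp (549 / 1000) ^ 2 := by
          rw [← Real.exp_nat_mul]; norm_num
        have h5 : Real.exp (549 / 1000) ≤ 17320 / 10000 := by
          have h6 := Real.exp_bound' (x := 549 / 1000) (by norm_num) (by norm_num) (n := 8)
            (by norm_num)
          refine h6.trans ?_
          norm_num [Finset.sum_range_succ, Nat.factorial]
        rw [h4]
        refine (pow_le_pow_left₀ (Real.exp_pos _).le h5 2).trans ?_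
        norm_num
      rwa [Real.le_log_iff_exp_le (by norm_num)]
    linarith
  have hL0 : 0 < L := by linarith
  have hAn : (A.card : ℝ) ≤ n := by
    rw [hnd]; exact_mod_cast Finset.card_le_univ A
  have hLpow0 : 0 < L ^ (10 ^ 9) := pow_pos hL0 _
  have hA0 : (0 : ℝ) < A.card := lt_of_lt_of_le hLpow0 hAc
  have hlA : 10 ^ 9 * Real.log L ≤ Real.log A.card := by
    have h1 := Real.log_le_log hLpow0 hAc
    rw [Real.log_pow] at h1
    push_cast at h1
    norm_num at h1 ⊢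
    exact h1
  have hlA' : Real.log A.card ≤ L := Real.log_le_log hA0 hAn
  obtain ⟨hL10, hl23⟩ := large_of L hL1 (hlA.trans hlA')
  set ℓ : ℝ := Real.log L with hℓd
  have hL1' : 1 ≤ L := by linarith
  set a : ℝ := Real.log A.card with had
  have ha0 : 0 < a := by
    norm_num at hlA
    linarith
  -- the sets
  have hAne : A.Nonempty := by
    rw [← Finset.card_pos]
    exact_mod_cast hA0
  have hSA : Sy A := ⟨hAne, hAinv⟩
  obtain ⟨C, hCA, hSC, hCgen, hCcard⟩ := hG G A hAinv hAgen (by omega)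
  set k : ℕ := 2 * ⌈L ^ 4⌉₊ + 1 with hkd
  have hLc : L ^ 4 ≤ (⌈L ^ 4⌉₊ : ℝ) := Nat.le_ceil _
  have hLc' : (⌈L ^ 4⌉₊ : ℝ) < L ^ 4 + 1 := Nat.ceil_lt_add_one (by positivity)
  have hL4 : L ≤ L ^ 4 := by
    calc L = L ^ 1 := (pow_one L).symm
      _ ≤ L ^ 4 := pow_le_pow_right₀ hL1' (by norm_num)
  have hkl : L ^ 4 ≤ (k : ℝ) := by
    rw [hkd]; push_cast; linarith
  have hku : (k : ℝ) ≤ 3 * L ^ 4 := by
    rw [hkd]; push_cast; linarith
  have hk1 : 1 ≤ k := by omega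
  have hk0' : (0 : ℝ) < k := by linarith
  set κ : ℝ := 4 * L / a + 2 with hκd
  have hκ2 : 2 < κ := by
    rw [hκd]
    have : 0 < 4 * L / a := by positivity
    linarith
  have hκL : κ ≤ L := by
    have h1 : 4 * L / a ≤ L / 2 := by
      rw [div_le_iff₀ ha0]
      have h2 : 8 ≤ a := by
        norm_num at hlA
        linarith
      nlinarith
    rw [hκd]; linarith
  have hchoice : n ^ 4 ≤ (A.card : ℝ) ^ (κ - 2) := by
    rw [Real.rpow_def_of_pos hA0, ← had, hκd]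
    have h1 : a * (4 * L / a + 2 - 2) = (4 : ℕ) * L := by
      field_simp
      push_cast
      ring
    rw [h1, Real.exp_nat_mul, hLd, Real.exp_log hn0]
  obtain ⟨B, hBA, hSB, hAB, hBmax⟩ := hCh G A C hSA hSC κ k hk1 hκ2 hchoice
  set b : ℝ := (B.card : ℝ) with hbd
  have hb1 : 1 ≤ b := by
    rw [hbd]
    have := Finset.card_pos.2 hSB.ne
    exact_mod_cast this
  have hb0 : 0 < b := by linarith
  have hlb : 5 * 10 ^ 8 * ℓ ≤ Real.log b := by
    have h1 := Real.log_le_log hA0 hAB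
    rw [Real.log_pow] at h1
    push_cast at h1
    linarith
  set lb : ℝ := Real.log b with hlbd
  have hlb0 : 10 ^ 10 ≤ lb := by
    norm_num at hlb ⊢
    linarith
  have hlbp : 0 < lb := by
    norm_num at hlb0
    linarith
  -- `r0`
  set r0 : ℕ := max 2 ⌈8 * L / lb⌉₊ with hr0d
  have hr2 : 2 ≤ r0 := le_max_left _ _
  have hr0l : 8 * L / lb ≤ r0 := by
    refine (Nat.le_ceil _).trans ?_
    exact_mod_cast le_max_right _ _
  have hr0u : (r0 : ℝ) + 1 ≤ L / 10 ^ 8 := by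
    have h1 : 8 * L / lb ≤ 8 * L / 10 ^ 10 :=
      div_le_div_of_nonneg_left (by positivity) (by norm_num) hlb0
    have h2 : (⌈8 * L / lb⌉₊ : ℝ) < 8 * L / lb + 1 := Nat.ceil_lt_add_one (by positivity)
    rw [hr0d]
    push_cast
    rcases max_cases (2 : ℝ) (⌈8 * L / lb⌉₊ : ℝ) with ⟨h3, -⟩ | ⟨h3, -⟩
    · rw [h3]
      norm_num at hL10 ⊢
      linarith
    · rw [h3]
      norm_num at hL10 h1 ⊢
      linarith
  set T : ℕ := ⌈L⌉₊ with hTd
  have hTl : L ≤ (T : ℝ) := Nat.le_ceil _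
  have hTu : (T : ℝ) ≤ 2 * L := by
    have : (T : ℝ) < L + 1 := Nat.ceil_lt_add_one hL0.le
    linarith
  have hT1 : 1 ≤ T := by
    rw [hTd, Nat.one_le_ceil_iff]; exact hL0
  -- `X`
  set X : ℝ := L ^ 1500 with hXd
  have hLe : L = Real.exp ℓ := by rw [hℓd, Real.exp_log hL0]
  have hXpow : ∀ m : ℕ, X ^ m = Real.exp (m * (1500 * ℓ)) := by
    intro m
    rw [hXd, Real.exp_nat_mul]
    congr 1
    have h1 : (1500 : ℝ) * ℓ = (1500 : ℕ) * ℓ := by norm_num
    rw [h1, Real.exp_nat_mul, ← hLe]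
  have hX200 : ((10 ^ 6 * T * k * (r0 + 1) : ℕ) : ℝ) ^ 200 ≤ X := by
    have h1 : ((10 ^ 6 * T * k * (r0 + 1) : ℕ) : ℝ) ≤ L ^ 6 := by
      have hm : ((10 ^ 6 * T * k * (r0 + 1) : ℕ) : ℝ) = 10 ^ 6 * (T : ℝ) * k * (r0 + 1) := by
        push_cast; ring
      rw [hm]
      have h2 : (10 ^ 6 * (T : ℝ)) * k ≤ (10 ^ 6 * (2 * L)) * (3 * L ^ 4) := by
        apply mul_le_mul _ hku (Nat.cast_nonneg _) (by positivity)
        exact mul_le_mul_of_nonneg_left hTu (by norm_num)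
      have h3 : (10 ^ 6 * (T : ℝ)) * k * (r0 + 1) ≤
          (10 ^ 6 * (2 * L)) * (3 * L ^ 4) * (L / 10 ^ 8) := by
        apply mul_le_mul h2 hr0u (by positivity) (by positivity)
      refine h3.trans ?_
      have h4 : (10 ^ 6 * (2 * L)) * (3 * L ^ 4) * (L / 10 ^ 8) = 6 / 100 * L ^ 6 := by
        ring
      rw [h4]
      have h5 : 0 ≤ L ^ 6 := by positivity
      linarith
    calc ((10 ^ 6 * T * k * (r0 + 1) : ℕ) : ℝ) ^ 200 ≤ (L ^ 6) ^ 200 :=
          pow_le_pow_left₀ (Nat.cast_nonneg _) h1 200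
      _ = L ^ 1200 := by rw [← pow_mul]
      _ ≤ L ^ 1500 := pow_le_pow_right₀ hL1' (by norm_num)
  have hX1 : 1 ≤ X := one_le_pow₀ hL1'
  have hBX : X ^ 200000 ≤ b := by
    rw [hXpow]
    have h1 : b = Real.exp lb := by rw [hlbd, Real.exp_log hb0]
    rw [h1]
    apply Real.exp_le_exp.2
    push_cast
    linarith
  have hXB : X ≤ b := by
    refine le_trans ?_ hBX
    calc X = X ^ 1 := (pow_one X).symm
      _ ≤ X ^ 200000 := pow_le_pow_right₀ hX1 (by norm_num)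
  have hkr : 100 * ((r0 : ℝ) + 1) ^ 2 * (L + 1) ≤ k := by
    refine le_trans ?_ hkl
    have h1 : (r0 : ℝ) + 1 ≤ L := by
      refine hr0u.trans ?_
      rw [div_le_iff₀ (by norm_num)]
      linarith
    have h2 : ((r0 : ℝ) + 1) ^ 2 ≤ L ^ 2 := pow_le_pow_left₀ (by positivity) h1 2
    have h3 : 100 * ((r0 : ℝ) + 1) ^ 2 * (L + 1) ≤ 100 * L ^ 2 * (2 * L) := by
      apply mul_le_mul _ (by linarith) (by positivity) (by positivity)
      linarith
    refine h3.trans ?_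
    have h4 : 100 * L ^ 2 * (2 * L) = 200 * L ^ 3 := by ring
    rw [h4]
    calc 200 * L ^ 3 ≤ L * L ^ 3 := by
          apply mul_le_mul_of_nonneg_right _ (by positivity)
          linarith
      _ = L ^ 4 := by ring
  have hnexp : n = Real.exp L := by rw [hLd, Real.exp_log hn0]
  have hTT : n ^ 20 ≤ X ^ (3 * T) := by
    rw [hXpow, hnexp, ← Real.exp_nat_mul]
    apply Real.exp_le_exp.2
    push_cast
    have h1 : L * 23 ≤ (T : ℝ) * ℓ := mul_le_mul hTl hl23 (by norm_num) (Nat.cast_nonneg _)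
    nlinarith
  have hrr : n ^ 8 ≤ b ^ r0 := by
    have h1 : b = Real.exp lb := by rw [hlbd, Real.exp_log hb0]
    rw [h1, hnexp, ← Real.exp_nat_mul, ← Real.exp_nat_mul]
    apply Real.exp_le_exp.2
    rw [div_le_iff₀ hlbp] at hr0l
    push_cast
    linarith
  have hkB : 10 ^ 6 * (k : ℝ) ^ 3 ≤ b := by
    refine le_trans ?_ (hX200.trans hXB)
    have h1 : (10 ^ 6 * (k : ℝ)) ^ 200 ≤ ((10 ^ 6 * T * k * (r0 + 1) : ℕ) : ℝ) ^ 200 := by
      apply pow_le_pow_left₀ (by positivity)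
      have e1 : ((10 ^ 6 * T * k * (r0 + 1) : ℕ) : ℝ) = (T * (r0 + 1) : ℝ) * (10 ^ 6 * k) := by
        push_cast; ring
      rw [e1]
      apply le_mul_of_one_le_left (by positivity)
      have h2 : (1 : ℝ) ≤ T := by exact_mod_cast hT1
      have h3 : (1 : ℝ) ≤ (r0 : ℝ) + 1 := by
        have : (0 : ℝ) ≤ r0 := Nat.cast_nonneg _
        linarith
      exact one_le_mul_of_one_le_of_one_le h2 h3
    refine le_trans ?_ h1
    have hk1' : (1 : ℝ) ≤ k := by exact_mod_cast hk1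
    have h4 : (1 : ℝ) ≤ 10 ^ 6 * (k : ℝ) := by linarith
    calc 10 ^ 6 * (k : ℝ) ^ 3 ≤ (10 ^ 6 * (k : ℝ)) ^ 3 := by
          rw [mul_pow]
          apply mul_le_mul_of_nonneg_right _ (by positivity)
          norm_num
      _ ≤ (10 ^ 6 * (k : ℝ)) ^ 200 := pow_le_pow_right₀ h4 (by norm_num)
  -- numerics
  have hkL3 : 10 ^ 20 * L ^ 2 ≤ (k : ℝ) := by
    refine le_trans ?_ hkl
    have h1 : (10 : ℝ) ^ 20 ≤ L ^ 2 := by
      have h2 : ((10 : ℝ) ^ 10) ^ 2 ≤ L ^ 2 := by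
        apply pow_le_pow_left₀ (by norm_num)
        linarith
      calc (10 : ℝ) ^ 20 = ((10 : ℝ) ^ 10) ^ 2 := by norm_num
        _ ≤ L ^ 2 := h2
    calc 10 ^ 20 * L ^ 2 ≤ L ^ 2 * L ^ 2 := mul_le_mul_of_nonneg_right h1 (by positivity)
      _ = L ^ 4 := by ring
  have hL2 : L ≤ L ^ 2 := by nlinarith
  have hCk : (C.card : ℝ) ≤ k := by
    refine hCcard.trans ?_
    norm_num at hkL3
    linarith
  have hs1 : L / k ≤ 1 / 10 ^ 8 := by
    rw [div_le_iff₀ hk0']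
    norm_num at hkL3 ⊢
    linarith
  have hs2 : 40 * (L + κ) / k ≤ 1 / 10 ^ 8 := by
    rw [div_le_iff₀ hk0']
    norm_num at hkL3 ⊢
    linarith
  have hs3 : 2 * C.card * (L / k) ≤ 1 / 10 ^ 8 := by
    have h1 : 2 * C.card * (L / k) = 2 * C.card * L / k := by ring
    rw [h1, div_le_iff₀ hk0']
    have h2 : 2 * (C.card : ℝ) * L ≤ 2 * (3 * L) * L := by
      apply mul_le_mul_of_nonneg_right _ hL0.le
      apply mul_le_mul_of_nonneg_left hCcard (by norm_num)
    have h4 : 2 * (3 * L) * L = 6 * L ^ 2 := by ring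
    rw [h4] at h2
    have h5 : 0 ≤ L ^ 2 := by positivity
    norm_num at hkL3 ⊢
    linarith
  have hmax : ∀ B' ⊆ B, Sy B' → (B'.card : ℝ) ^ κ * qf B' C false k * qf B' C true k ≤
      (B.card : ℝ) ^ κ * qf B C false k * qf B C true k :=
    fun B' h1 h2 => hBmax B' (h1.trans hBA) h2
  have h100 : 100 * L ≤ (k : ℝ) := by
    norm_num at hkL3
    linarith
  have htyp := hT G B C hSB hSC k κ hk1 h100 (by linarith) (by linarith) hL1' hkB hmax
  have hr : ∀ τ, ∀ s ∈ B, 1 - 1 / 10 ^ 8 ≤ r1 B C τ k s ∧ 1 - 1 / 10 ^ 8 ≤ r2 B C τ k s := by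
    intro τ s hs
    obtain ⟨h1, h2⟩ := htyp τ s hs
    constructor <;> linarith
  have hlog : L ≤ (k : ℝ) := by linarith
  have hrC : ∀ τ, τ = true → ∀ t ∈ C, 1 - 1 / 10 ^ 8 ≤ r2 B C τ k t := by
    intro τ hτ t ht
    have h1 := (hR G B C hSB hSC τ k hk1 hlog).2.2.2 hτ t ht
    linarith
  have har := fun τ => hH G B C hSB hSC τ k (1 / 10 ^ 8) hk1 (by norm_num) le_rfl hs1 (hr τ)
    (hrC τ)
  have hlogc := fun τ => hL G (SM B C τ) (kf hM hSB hSC τ).sd (kf hM hSB hSC τ).si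
    (kf hM hSB hSC τ).st
  exact ⟨{ X := X, k := k, T := T, r0 := r0, B := B, C := C, hT1 := hT1,
           hodd := ⟨⌈L ^ 4⌉₊, rfl⟩,
           hr1 := hr2, hX := hX200, hkr := hkr, hT := hTT, hr0 := hrr,
           hBX := hBX, hB := hSB, hC := hSC, hB1 := fun h => hA1 (hBA h),
           hC1 := fun h => hA1 (hCA h), hCc := by exact_mod_cast hCk, hCgen := hCgen,
           hq := fun τ => (hlogc τ).1 k,
           hcE := fun τ => (har τ).1, hcO := fun τ => (har τ).2.1,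
           hcM := fun τ => (har τ).2.2 }, hBA, hCA⟩

end Pool.Agent.Lib.MP_688fd0_co.TF.H54
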