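import Pool.Agent.Lib.MP_688fd0_co.TF.Defs
import Pool.Agent.Lib.MP_688fd0_co.TE.H54.Har

/-!
# Theorem F: module HARF (`L2` closeness)
-/

namespace Pool.Agent.Lib.MP_688fd0_co.TF.H54

open Pool.Agent.Lib.MP_688fd0_co.TE
open Pool.Agent.Lib.MP_688fd0_co.TE.H54

universe u

open Matrix

set_option linter.unusedSectionVars false

variable {G : Type u} [Group G] [Fintype G] [DecidableEq G]

/-- Sum of squares as a norm. -/
theorem sum_sq_rw (M N : Matrix G G ℝ) (x y : G) :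
    ∑ v, (M x v - N y v) ^ 2 = ‖rw' M x - rw' N y‖ ^ 2 := by
  rw [EuclideanSpace.norm_sq_eq]
  apply Finset.sum_congr rfl
  intro v _
  simp [rw', sq_abs]

/-- Averaging a vector valued function over a doubly stochastic kernel. -/
theorem avg {W : Matrix G G ℝ} (hW : DS W) (N : Matrix G G ℝ) (x : G)
    (a : EuclideanSpace ℝ G) (r : ℝ) (h : ∀ z, W x z ≠ 0 → ‖rw' N z - a‖ ≤ r) :
    ‖rw' (W * N) x - a‖ ≤ r := by
  have e1 : rw' (W * N) x - a = ∑ z, W x z • (rw' N z - a) := by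
    rw [rw_mul]
    simp only [smul_sub]
    rw [Finset.sum_sub_distrib, ← Finset.sum_smul, hW.row, one_smul]
  rw [e1]
  refine (norm_sum_le _ _).trans ?_
  have e2 : ∀ z ∈ Finset.univ, ‖W x z • (rw' N z - a)‖ ≤ W x z * r := by
    intro z _
    rw [norm_smul, Real.norm_of_nonneg (hW.nn x z)]
    by_cases hz : W x z = 0
    · rw [hz, zero_mul, zero_mul]
    · exact mul_le_mul_of_nonneg_left (h z hz) (hW.nn x z)
  refine (Finset.sum_le_sum e2).trans ?_
  rw [← Finset.sum_mul, hW.row, one_mul]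

/-- HARF. -/
theorem harf (hM : MAT_S.{u}) (hL : LOGC_S.{u}) : HARF_S.{u} := by
  intro G _ _ _ B C hB hC τ k e hk he0 he hlog hr hrC
  have hr2 : ∀ s ∈ Lt B C τ, 1 - e ≤ r2 B C τ k s := by
    intro s hs
    unfold Lt at hs
    cases τ
    · simp only [Bool.false_eq_true, if_false] at hs
      exact (hr s hs).2
    · simp only [if_true, Finset.mem_union] at hs
      rcases hs with h | h
      · exact (hr s h).2
      · exact hrC rfl s h
  obtain ⟨hq0, -, -, g1, g2⟩ := basic hM hL hB hC τ hk he0 he hlog (fun s hs => (hr s hs).1) hr2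
  have K := kf hM hB hC τ
  obtain ⟨-, m2, -⟩ := hM G
  set q := qf B C τ k with hq
  set h := 2 * Real.sqrt e * Real.sqrt q with hh
  have hh0 : 0 ≤ h := by positivity
  have hsq : h ^ 2 = 4 * e * q := by
    rw [hh, mul_pow, mul_pow, Real.sq_sqrt he0, Real.sq_sqrt (le_of_lt hq0)]; norm_num
  have f1 : ∀ y, ∀ s ∈ B, ‖rw' (WM B C τ * (UM B * SM B C τ ^ (k - 1))) (y * s) -
      rw' (SM B C τ ^ k) y‖ ≤ h := by
    intro y s hs
    apply le_of_sq_le_sq _ hh0
    rw [hsq]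
    exact g1 y s hs
  have f2 : ∀ y, ∀ s ∈ Lt B C τ, ‖rw' (UM B * SM B C τ ^ (k - 1)) (y * s) -
      rw' (UM B * SM B C τ ^ k) y‖ ≤ h := by
    intro y s hs
    apply le_of_sq_le_sq _ hh0
    rw [hsq]
    exact g2 y s hs
  have f6 := letter hM hB hC τ k h f1 f2
  have f6' : ∀ y, ∀ t ∈ Lt B C τ, ‖rw' (UM B * SM B C τ ^ k) (y * t) -
      rw' (SM B C τ ^ k) y‖ ≤ 4 * h := by
    intro y t ht
    have := f6 (y * t) t⁻¹ (Lt_inv hB hC τ ht)
    rwa [mul_inv_cancel_right, norm_sub_rev] at this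
  have fw := fun l hl y => words (fun t ht => Lt_inv hB hC τ ht)
    (fun y => rw' (SM B C τ ^ k) y) (fun y => rw' (UM B * SM B C τ ^ k) y) (4 * h) f6 l hl y
  have hlen : ∀ j : ℕ, j ≤ 100 → (j : ℝ) * (4 * h) ≤ 400 * h := by
    intro j hj
    have : (j : ℝ) ≤ 100 := by exact_mod_cast hj
    nlinarith
  have hbig : (408 * h) ^ 2 ≤ q / 100 := by
    have e1 : (408 * h) ^ 2 = 665856 * e * q := by rw [mul_pow, hsq]; ring
    rw [e1]
    have e2 : 665856 * e ≤ 1 / 100 := by norm_num at he ⊢; linarith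
    have e3 := mul_le_mul_of_nonneg_right e2 (le_of_lt hq0)
    linarith
  -- the rows of `S ^ (k + 1)`
  have hS1 : SM B C τ ^ (k + 1) = UM B * WM B C τ * (UM B * SM B C τ ^ k) := by
    rw [pow_succ']
    unfold SM
    simp only [Matrix.mul_assoc]
  have f7 : ∀ x, ‖rw' (SM B C τ ^ (k + 1)) x - rw' (UM B * SM B C τ ^ k) x‖ ≤ 8 * h := by
    intro x
    rw [hS1]
    apply avg (m2 _ _ K.bd K.wd)
    intro z hz
    rw [Matrix.mul_apply] at hz
    obtain ⟨y, -, hy⟩ := Finset.exists_ne_zero_of_sum_ne_zero hz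
    have h1 : x⁻¹ * y ∈ B := UM_supp (left_ne_zero_of_mul hy)
    have h2 : y⁻¹ * z ∈ Lt B C τ := WM_supp (right_ne_zero_of_mul hy)
    have e1 := f6' y _ h2
    have e2 := f6 x _ (B_sub_Lt τ h1)
    rw [mul_inv_cancel_left] at e1 e2
    have e3 := norm_sub_le_norm_sub_add_norm_sub (rw' (UM B * SM B C τ ^ k) z)
      (rw' (SM B C τ ^ k) y) (rw' (UM B * SM B C τ ^ k) x)
    linarith
  refine ⟨?_, ?_, ?_⟩
  · rintro x y ⟨j, hj, hj', l, hll, hls, hlp⟩
    have hy : y = x * l.prod := by rw [hlp, mul_inv_cancel_left]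
    obtain ⟨w1, -⟩ := fw l hls x
    have w2 := (w1 (by rw [hll]; exact hj)).1
    rw [← hy, hll, norm_sub_rev] at w2
    rw [sum_sq_rw]
    refine (pow_le_pow_left₀ (norm_nonneg _) ?_ 2).trans hbig
    have := hlen j hj'
    linarith
  · rintro x y ⟨j, hj, hj', l, hll, hls, hlp⟩
    have hy : y = x * l.prod := by rw [hlp, mul_inv_cancel_left]
    obtain ⟨-, w1⟩ := fw l hls x
    have w2 := (w1 (by rw [hll]; exact hj)).1
    rw [← hy, hll, norm_sub_rev] at w2
    rw [sum_sq_rw]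
    refine (pow_le_pow_left₀ (norm_nonneg _) ?_ 2).trans hbig
    have e1 := f7 x
    have e2 := hlen j hj'
    have e3 := norm_sub_le_norm_sub_add_norm_sub (rw' (SM B C τ ^ (k + 1)) x)
      (rw' (UM B * SM B C τ ^ k) x) (rw' (SM B C τ ^ k) y)
    linarith
  · intro x t ht
    have hSt : ∀ j : ℕ, (SM B C τ ^ j).transpose = SM B C τ ^ j := by
      intro j
      rw [Matrix.transpose_pow, K.st]
    have hI1 : Inv (WM B C τ * (UM B * SM B C τ ^ k)) :=
      inv_mul' K.wi (inv_mul' K.bi (inv_pow' K.si _))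
    have hI2 : Inv (SM B C τ ^ (k + 1)) := inv_pow' K.si _
    have hT1 : (SM B C τ ^ k * UM B * WM B C τ) =
        (WM B C τ * (UM B * SM B C τ ^ k)).transpose := by
      rw [Matrix.transpose_mul, Matrix.transpose_mul, hSt, K.bt, K.wt]
    have e1 : ∑ v, ((SM B C τ ^ k * UM B * WM B C τ) x v -
        (SM B C τ ^ (k + 1)) x (v * t)) ^ 2 =
        ∑ u, ((WM B C τ * (UM B * SM B C τ ^ k)) 1 u - (SM B C τ ^ (k + 1)) t u) ^ 2 := by
      rw [← Equiv.sum_comp ((Equiv.inv G).trans (Equiv.mulRight x))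
        (fun u => ((WM B C τ * (UM B * SM B C τ ^ k)) 1 u - (SM B C τ ^ (k + 1)) t u) ^ 2)]
      apply Finset.sum_congr rfl
      intro v _
      simp only [Equiv.trans_apply, Equiv.inv_apply, Equiv.coe_mulRight]
      have e2 := hI1 v 1 (v⁻¹ * x)
      have e3 := hI2 v t (v⁻¹ * x)
      rw [mul_one, mul_inv_cancel_left] at e2
      rw [mul_inv_cancel_left] at e3
      rw [hT1, Matrix.transpose_apply, e2, ← e3]
      congr 2
      conv_lhs => rw [← hSt (k + 1)]
      rw [Matrix.transpose_apply]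
    rw [e1, sum_sq_rw]
    refine (pow_le_pow_left₀ (norm_nonneg _) ?_ 2).trans hbig
    have e4 : ‖rw' (WM B C τ * (UM B * SM B C τ ^ k)) 1 - rw' (SM B C τ ^ k) 1‖ ≤ 4 * h := by
      apply avg K.wd
      intro z hz
      have h2 := WM_supp hz
      have h3 := f6' 1 _ h2
      rwa [mul_inv_cancel_left] at h3
    have e5 := f7 t
    have e6 := f6' 1 t (B_sub_Lt τ ht)
    rw [one_mul] at e6
    have e7 := norm_sub_le_norm_sub_add_norm_sub (rw' (SM B C τ ^ (k + 1)) t)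
      (rw' (UM B * SM B C τ ^ k) t) (rw' (SM B C τ ^ k) 1)
    have e8 := norm_sub_le_norm_sub_add_norm_sub
      (rw' (WM B C τ * (UM B * SM B C τ ^ k)) 1) (rw' (SM B C τ ^ k) 1)
      (rw' (SM B C τ ^ (k + 1)) t)
    rw [norm_sub_rev (rw' (SM B C τ ^ k) 1) (rw' (SM B C τ ^ (k + 1)) t)] at e8
    linarith

end Pool.Agent.Lib.MP_688fd0_co.TF.H54
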