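import Pool.Agent.Lib.MP_688fd0_co.TF.H54.PushI

/-!
# Theorem F: module PFF (pair hypotheses for the instances)
-/

set_option linter.unusedSectionVars false

namespace Pool.Agent.Lib.MP_688fd0_co.TF.H54

open Pool.Agent.Lib.MP_688fd0_co.TE

universe u v

theorem pw_nn {V : Type u} {Val : Type v} [Fintype V] [Fintype Val] [DecidableEq V] {a : ℕ}
    (M : LM V Val a) : ∀ (z : List (V × Val)) (j : ℕ) (x y : V), 0 ≤ M.pw j x z y
  | [], _, _, _ => M.hC0 _ _ _
  | _ :: l, _, _, _ => mul_nonneg (mul_nonneg (M.hC0 _ _ _) (M.hk0 _ _ _)) (pw_nn M l _ _ _)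

theorem ind_le_sum' {κ : Type*} [Fintype κ] {P : Prop} {E : κ → Prop} (h : P → ∃ k, E k) :
    ind P ≤ ∑ k, ind (E k) := by
  by_cases hP : P
  · obtain ⟨k, hk⟩ := h hP
    rw [ind_of hP, ← ind_of hk]
    exact Finset.single_le_sum (f := fun k => ind (E k)) (fun i _ => ind_nonneg _)
      (Finset.mem_univ k)
  · rw [ind_not hP]
    exact Finset.sum_nonneg fun i _ => ind_nonneg _

variable {G : Type u} [Group G] [Fintype G] [DecidableEq G]

theorem fin_cast (cx : ℕ → Matrix G G ℝ) (x y : G) (Φ : List G → ℝ) (m n : ℕ) (h : m = n + 1) :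
    ∑ zz : Fin (m + 1) → G, ind (zz 0 = x ∧ zz (Fin.last m) = y) *
      (∏ j : Fin m, cx (j + 1) (zz j.castSucc) (zz j.succ)) * Φ (List.ofFn zz) =
      sumL n (fun l => wl cx 0 x l y * Φ (x :: (l ++ [y]))) := by
  subst h
  rw [← sum_fin cx y n 0 x Φ]
  simp only [zero_add]

theorem len_true (c : Ctx G) : c.len true = 6 * c.k + 3 := by simp [Ctx.len]

theorem mid_true (c : Ctx G) : c.mid true = 3 * c.k + 3 := by simp [Ctx.mid]

theorem ha_true (c : Ctx G) : c.ha true = c.k + 1 := by simp [Ctx.ha]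

theorem ha_false (c : Ctx G) : c.ha false = c.k := by simp [Ctx.ha]

/-- The law of the link walk as a sum over lists. -/
theorem WL_sum (c : Ctx G) (τ : Bool) (x y : G) (hFF : c.FF τ true x y ≠ 0) (Φ : List G → ℝ) :
    c.FF τ true x y * ∑ zz, c.WL τ true x y zz * Φ (List.ofFn zz) =
      sumL (6 * c.k + 2) (fun l => wl (c.cx τ true x y) 0 x l y * Φ (x :: (l ++ [y]))) := by
  rw [← fin_cast (c.cx τ true x y) x y Φ (c.len true) (6 * c.k + 2) (len_true c), Finset.mul_sum]
  refine Finset.sum_congr rfl fun zz _ => ?_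
  unfold Ctx.WL
  field_simp

variable {c : Ctx G} {τ : Bool} {d : ℕ} {Val : Type v} [Fintype Val] {a : ℕ} {M : LM G Val a}
  {jm : ℕ}

/-- The mid slot. -/
theorem jm_lt (hI : c.Inst τ d M jm) (hk : 1 ≤ c.k) : jm < a ∧ d * jm + (d - 1) = 3 * c.k + 2 := by
  have h1 := hI.len
  have h2 := hI.mid
  have hd : 1 ≤ d := by rcases hI.d1 with h | h <;> omega
  have h3 : d * jm + d = 3 * c.k + 3 := by rw [← h2]; ring
  refine ⟨?_, by omega⟩
  by_contra hcon
  have h4 : d * a ≤ d * jm := Nat.mul_le_mul_left d (by omega)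
  omega

/-- The reweighting factor. -/
theorem gm_le (hKER : KERF_S.{u}) (hI : c.Inst τ d M jm) (hk : 1 ≤ c.k) (x y : G)
    (z : List (G × Val)) (hz : z.length = a) :
    0 ≤ M.gm jm x y z ∧
    M.gm jm x y z ≤ ((vl d M.ex z)[3 * c.k + 2]?).elim 0 (c.rh τ true x y) := by
  obtain ⟨hja, hjm⟩ := jm_lt hI hk
  obtain ⟨s, hs⟩ : ∃ s, z[jm]? = some s :=
    ⟨z[jm]'(by omega), List.getElem?_eq_getElem (by omega)⟩
  obtain ⟨ka, kb, kc, -⟩ := mid_ker hKER hI hja
  obtain ⟨-, h2⟩ := vl_get hI.d1 M.ex hI.lev z jm s hs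
  rw [hjm] at h2
  unfold LM.gm
  rw [hs, h2]
  simp only [Option.elim_some]
  have h3 : c.rh τ true x y (M.ex s.1 s.2) =
      rho (M.kb jm x (M.ex s.1 s.2)) (M.kc jm (M.ex s.1 s.2) y) := by
    unfold Ctx.rh
    rw [mid_true, len_true, kb, kc]
    have e1 : 6 * c.k + 3 - (3 * c.k + 3) = 3 * c.k := by omega
    rw [e1]
  obtain ⟨k1, -⟩ := hKER G c τ
  have h4 : 0 ≤ rho (M.kb jm x (M.ex s.1 s.2)) (M.kc jm (M.ex s.1 s.2) y) := by
    apply rho_nonneg
    · rw [kb]; exact (k1 _ _).1.nn _ _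
    · rw [kc]; exact (k1 _ _).1.nn _ _
  unfold LM.mw
  rw [h3]
  exact ⟨mul_nonneg h4 (ind_nonneg _), mul_le_of_le_one_right h4 (ind_le_one _)⟩

/-- Domination of the labelled walks by the coupled link walk. -/
theorem master (hKER : KERF_S.{u}) (hI : c.Inst τ d M jm) (hk : 1 ≤ c.k) {x y : G}
    (hFF : c.FF τ true x y ≠ 0) {κ : Type} [Fintype κ] (E : List (G × Val) → Prop)
    (E' : κ → List G → Prop)
    (h : ∀ z, z.length = a → E z → ∃ k, E' k (x :: (vl d M.ex z ++ [y]))) :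
    sumL a (fun z => M.pr jm x y z * ind (E z)) ≤
      c.FF τ true x y * ∑ k, Pr (c.WL τ true x y) (fun zz => E' k (List.ofFn zz)) := by
  have hK := (hKER G c τ).2.2.2.2.2.2.2.2.2.2.2
  have h1 : sumL a (fun z => M.pr jm x y z * ind (E z)) ≤
      sumL (d * a) (fun l => wl (c.cc τ) (d * 0) x l y *
        ((l[3 * c.k + 2]?).elim 0 (c.rh τ true x y) * ∑ k, ind (E' k (x :: (l ++ [y]))))) := by
    rw [← push hI hK y a 0 x (fun l : List G =>
      (l[3 * c.k + 2]?).elim 0 (c.rh τ true x y) * ∑ k, ind (E' k (x :: (l ++ [y]))))]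
    refine sumL_mono' _ _ _ fun z hz => ?_
    obtain ⟨g1, g2⟩ := gm_le hKER hI hk x y z hz
    have h2 := ind_le_sum' (h z hz)
    unfold LM.pr
    rw [mul_assoc]
    apply mul_le_mul_of_nonneg_left _ (pw_nn M _ _ _ _)
    exact mul_le_mul g2 h2 (ind_nonneg _) (g1.trans g2)
  refine h1.trans (le_of_eq ?_)
  rw [hI.len, Nat.mul_zero]
  have h3 : c.FF τ true x y * ∑ k, Pr (c.WL τ true x y) (fun zz => E' k (List.ofFn zz)) =
      c.FF τ true x y * ∑ zz, c.WL τ true x y zz *
        (fun L : List G => ∑ k, ind (E' k L)) (List.ofFn zz) := by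
    congr 1
    unfold Pr
    rw [Finset.sum_comm]
    refine Finset.sum_congr rfl fun zz _ => ?_
    rw [Finset.mul_sum]
  rw [h3, WL_sum c τ x y hFF (fun L : List G => ∑ k, ind (E' k L))]
  refine sumL_congr' _ _ _ fun l hl => ?_
  have h4 := (wl_cpl (c.cc τ) (c.mid true) (c.rh τ true x y) y l 0 x).2
    (by rw [mid_true]; omega) (by rw [mid_true, hl]; omega)
  have h5 : wl (c.cx τ true x y) 0 x l y = wl (cpl (c.cc τ) (c.mid true) (c.rh τ true x y)) 0 x l y :=
    rfl
  rw [h5, h4]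
  have e1 : c.mid true - 0 - 1 = 3 * c.k + 2 := by rw [mid_true]; omega
  rw [e1]
  ring

/-- Positions of the vertices of a site. -/
theorem full_get (hI : c.Inst τ d M jm) (x y : G) {z : List (G × Val)} {i : ℕ} {s : G × Val}
    (hs : z[i]? = some s) {w : G} (hw : s.1 = w ∨ M.ex s.1 s.2 = w) :
    ∃ p, d * i + 1 ≤ p ∧ p ≤ d * i + d ∧ (x :: (vl d M.ex z ++ [y]))[p]? = some w := by
  have hd : 1 ≤ d := by rcases hI.d1 with h | h <;> omega
  obtain ⟨h1, h2⟩ := vl_get hI.d1 M.ex hI.lev z i s hs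
  have key : ∀ (q : ℕ) (v : G), (vl d M.ex z)[q]? = some v →
      (x :: (vl d M.ex z ++ [y]))[q + 1]? = some v := by
    intro q v hv
    rw [List.getElem?_cons_succ, List.getElem?_append_left, hv]
    by_contra hc
    rw [List.getElem?_eq_none (by omega)] at hv
    cases hv
  rcases hw with h | h
  · exact ⟨d * i + 1, le_rfl, by omega, by rw [key _ _ h1, h]⟩
  · exact ⟨d * i + (d - 1) + 1, by omega, by omega, by rw [key _ _ h2, h]⟩

/-- Total reweighted mass. -/
theorem Fm_eq (hR : RHOF_S.{u, v}) (hja : jm < a) (x y : G) :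
    M.Fm jm x y = ∑ s : G × Val, M.ka jm x s.1 * M.kap jm s.1 s.2 *
      M.kc jm (M.ex s.1 s.2) y * M.mw jm x y s := by
  have h1 := (hR G Val a M jm hja x y).2.2.2 (fun _ => 1)
  have h2 : M.Fm jm x y = sumL a (fun z => M.pr jm x y z * 1) := by
    unfold LM.Fm
    exact sumL_congr' _ _ _ fun z _ => (mul_one _).symm
  rw [h2, h1]
  refine Finset.sum_congr rfl fun s _ => ?_
  have h3 : ∀ l : List (G × Val), sumL (a - 1 - jm) (fun l' =>
      M.pw 0 x l s.1 * M.kap jm s.1 s.2 * M.pw (jm + 1) (M.ex s.1 s.2) l' y *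
        M.mw jm x y s * 1) =
      (M.kap jm s.1 s.2 * M.kc jm (M.ex s.1 s.2) y * M.mw jm x y s) * M.pw 0 x l s.1 := by
    intro l
    have h4 : ∀ l' : List (G × Val), M.pw 0 x l s.1 * M.kap jm s.1 s.2 *
        M.pw (jm + 1) (M.ex s.1 s.2) l' y * M.mw jm x y s * 1 =
        (M.pw 0 x l s.1 * M.kap jm s.1 s.2 * M.mw jm x y s) *
          M.pw (jm + 1) (M.ex s.1 s.2) l' y := fun l' => by ring
    rw [sumL_congr' _ _ _ fun l' _ => h4 l', sumL_mul']
    show _ * M.kc jm (M.ex s.1 s.2) y = _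
    ring
  rw [sumL_congr' _ _ _ fun l _ => h3 l, sumL_mul']
  show _ * M.ka jm x s.1 = _
  ring

/-- The pointwise estimate. -/
theorem pt_est (A B C : ℝ) (hA : 0 ≤ A) (hB : 0 ≤ B) (hC : 0 ≤ C) :
    A * (rho B C * C) - 2 * (A - B) ^ 2 ≤
      A * C * (rho B C * ind (A ≤ 2 * B ∧ B ≤ 2 * A)) := by
  by_cases h : A ≤ 2 * B ∧ B ≤ 2 * A
  · rw [ind_of h]
    have : 0 ≤ 2 * (A - B) ^ 2 := by positivity
    linarith
  · rw [ind_not h]
    have h1 := mul_le_mul_of_nonneg_left (rho_mul_le hB hC) hA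
    have h2 : A * B ≤ 2 * (A - B) ^ 2 := by
      by_cases h3 : A ≤ 2 * B
      · have h4 : 2 * A < B := by
          by_contra h5
          exact h ⟨h3, by linarith⟩
        nlinarith
      · push Not at h3
        nlinarith
    linarith

/-- The loss. -/
theorem loss (hKER : KERF_S.{u}) (hI : c.Inst τ d M jm) (hk : 1 ≤ c.k) (x : G) :
    ∑ u, ∑ v, c.K τ (d * jm + 1) (d - 1) u v * (2 * (M.ka jm x u - M.kb jm x v) ^ 2) ≤
      c.q τ / 50 := by
  obtain ⟨hja, hjm⟩ := jm_lt hI hk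
  obtain ⟨ka, kb, -, kab⟩ := mid_ker hKER hI hja
  obtain ⟨k1, k2, -, -, k5, -, -, -, -, -, -, k12⟩ := hKER G c τ
  have hq0 : 0 ≤ c.q τ := by
    have h1 := c.hq τ
    have h2 : (0 : ℝ) ≤ 1 / (Fintype.card G : ℝ) := by positivity
    exact h2.trans h1
  rcases hI.d1 with rfl | rfl
  · have h1 : ∀ v, M.kb jm x v = M.ka jm x v := by
      intro v
      rw [← kab x v, Finset.sum_eq_single v]
      · show _ * (1 : Matrix G G ℝ) v v = _
        rw [Matrix.one_apply_eq, mul_one]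
      · intro u _ hu
        show _ * (1 : Matrix G G ℝ) u v = _
        rw [Matrix.one_apply_ne hu, mul_zero]
      · intro h
        exact absurd (Finset.mem_univ _) h
    have h2 : ∑ u, ∑ v, c.K τ (1 * jm + 1) (1 - 1) u v *
        (2 * (M.ka jm x u - M.kb jm x v) ^ 2) = 0 := by
      refine Finset.sum_eq_zero fun u _ => Finset.sum_eq_zero fun v _ => ?_
      by_cases huv : u = v
      · subst huv
        rw [h1]
        ring
      · show (1 : Matrix G G ℝ) u v * _ = 0
        rw [Matrix.one_apply_ne huv, zero_mul]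
    rw [h2]
    positivity
  · have e0 : 2 * jm + 1 = 3 * c.k + 2 := by omega
    have hmid := hI.mid
    have hker : ∀ u v, c.K τ (2 * jm + 1) (2 - 1) u v = UM c.B u v := by
      intro u v
      show c.K τ (2 * jm + 1) 1 u v = _
      rw [k12]
      unfold Ctx.cc cF
      rw [if_neg (by omega)]
    have hka : ∀ u, M.ka jm x u = (SM c.B c.C τ ^ c.k * UM c.B * WM c.B c.C τ) x u := by
      intro u
      rw [ka, e0, k2 0 (3 * c.k) 2, k5, Nat.zero_add, k2 (3 * c.k) 1 1, k12, k12,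
        ← Matrix.mul_assoc]
      unfold Ctx.cc cF
      rw [if_neg (by omega), if_pos (by omega)]
    have hkb : ∀ v, M.kb jm x v = (SM c.B c.C τ ^ (c.k + 1)) x v := by
      intro v
      rw [kb]
      have e1 : 3 * c.k + 3 = 3 * (c.k + 1) := by ring
      rw [e1, k5]
    have h1 : ∑ u, ∑ v, c.K τ (2 * jm + 1) (2 - 1) u v *
        (2 * (M.ka jm x u - M.kb jm x v) ^ 2) =
        ∑ t, ind (t ∈ c.B) / (c.B.card : ℝ) * (2 *
          ∑ u, ((SM c.B c.C τ ^ c.k * UM c.B * WM c.B c.C τ) x u -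
            (SM c.B c.C τ ^ (c.k + 1)) x (u * t)) ^ 2) := by
      have h2 : ∀ u, ∑ v, c.K τ (2 * jm + 1) (2 - 1) u v *
          (2 * (M.ka jm x u - M.kb jm x v) ^ 2) =
          ∑ t, ind (t ∈ c.B) / (c.B.card : ℝ) * (2 *
            ((SM c.B c.C τ ^ c.k * UM c.B * WM c.B c.C τ) x u -
            (SM c.B c.C τ ^ (c.k + 1)) x (u * t)) ^ 2) := by
        intro u
        rw [← Equiv.sum_comp (Equiv.mulLeft u) (fun v => c.K τ (2 * jm + 1) (2 - 1) u v *
          (2 * (M.ka jm x u - M.kb jm x v) ^ 2))]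
        refine Finset.sum_congr rfl fun t _ => ?_
        simp only [Equiv.coe_mulLeft]
        rw [hker, hka, hkb]
        unfold UM
        rw [inv_mul_cancel_left]
      rw [Finset.sum_congr rfl fun u _ => h2 u, Finset.sum_comm]
      refine Finset.sum_congr rfl fun t _ => ?_
      rw [← Finset.mul_sum, ← Finset.mul_sum]
    rw [h1]
    have h3 : ∀ t ∈ Finset.univ, ind (t ∈ c.B) / (c.B.card : ℝ) * (2 *
          ∑ u, ((SM c.B c.C τ ^ c.k * UM c.B * WM c.B c.C τ) x u -
            (SM c.B c.C τ ^ (c.k + 1)) x (u * t)) ^ 2) ≤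
          ind (t ∈ c.B) / (c.B.card : ℝ) * (c.q τ / 50) := by
      intro t _
      by_cases ht : t ∈ c.B
      · apply mul_le_mul_of_nonneg_left _ (div_nonneg (ind_nonneg _) (Nat.cast_nonneg _))
        have := c.hcM τ x t ht
        show _ ≤ qf c.B c.C τ c.k / 50
        linarith
      · rw [ind_not ht]
        simp
    refine (Finset.sum_le_sum h3).trans ?_
    rw [← Finset.sum_mul]
    have h4 : ∑ t, ind (t ∈ c.B) / (c.B.card : ℝ) = 1 := by
      rw [← Finset.sum_div]
      have h5 : ∑ t, ind (t ∈ c.B) = (c.B.card : ℝ) := by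
        have h6 : ∀ t : G, ind (t ∈ c.B) = if t ∈ c.B then (1 : ℝ) else 0 := by
          intro t
          by_cases ht : t ∈ c.B
          · rw [ind_of ht, if_pos ht]
          · rw [ind_not ht, if_neg ht]
        rw [Finset.sum_congr rfl fun t _ => h6 t]
        simp
      rw [h5]
      have : (0 : ℝ) < c.B.card := by
        exact_mod_cast Finset.card_pos.2 c.hB.ne
      exact div_self (ne_of_gt this)
    rw [h4, one_mul]

/-- The reweighted mass is almost the coupled mass. -/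
theorem Fm_ge (hR : RHOF_S.{u, v}) (hKER : KERF_S.{u}) (hI : c.Inst τ d M jm) (hk : 1 ≤ c.k)
    (x y : G) (hFF : c.FF τ true x y = ∑ v, min (c.K τ 0 (c.mid true) x v)
      (c.K τ (c.mid true) (c.len true - c.mid true) v y) ^ 2) :
    c.FF τ true x y - c.q τ / 50 ≤ M.Fm jm x y := by
  obtain ⟨hja, hjm⟩ := jm_lt hI hk
  obtain ⟨ka, kb, kc, kab⟩ := mid_ker hKER hI hja
  obtain ⟨k1, -⟩ := hKER G c τ
  have a0 : ∀ u, 0 ≤ M.ka jm x u := fun u => by rw [ka]; exact (k1 _ _).1.nn _ _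
  have b0 : ∀ u, 0 ≤ M.kb jm x u := fun u => by rw [kb]; exact (k1 _ _).1.nn _ _
  have c0 : ∀ u, 0 ≤ M.kc jm u y := fun u => by rw [kc]; exact (k1 _ _).1.nn _ _
  have h1 : M.Fm jm x y = ∑ u, ∑ v, c.K τ (d * jm + 1) (d - 1) u v *
      (M.ka jm x u * M.kc jm v y * (rho (M.kb jm x v) (M.kc jm v y) *
        ind (M.ka jm x u ≤ 2 * M.kb jm x v ∧ M.kb jm x v ≤ 2 * M.ka jm x u))) := by
    rw [Fm_eq hR hja, Fintype.sum_prod_type]
    refine Finset.sum_congr rfl fun u _ => ?_
    have h2 : ∀ e : Val, M.ka jm x u * M.kap jm u e * M.kc jm (M.ex u e) y *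
        M.mw jm x y (u, e) = ∑ v, (M.kap jm u e * ind (M.ex u e = v)) *
        (M.ka jm x u * M.kc jm v y * (rho (M.kb jm x v) (M.kc jm v y) *
        ind (M.ka jm x u ≤ 2 * M.kb jm x v ∧ M.kb jm x v ≤ 2 * M.ka jm x u))) := by
      intro e
      rw [Finset.sum_eq_single (M.ex u e)]
      · rw [ind_of rfl]
        unfold LM.mw
        ring
      · intro v _ hv
        rw [ind_not (fun h => hv h.symm)]
        ring
      · intro h
        exact absurd (Finset.mem_univ _) h
    rw [Finset.sum_congr rfl fun e _ => h2 e, Finset.sum_comm]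
    refine Finset.sum_congr rfl fun v _ => ?_
    rw [← Finset.sum_mul, hI.kap]
  have h3 : c.FF τ true x y = ∑ u, ∑ v, c.K τ (d * jm + 1) (d - 1) u v *
      (M.ka jm x u * (rho (M.kb jm x v) (M.kc jm v y) * M.kc jm v y)) := by
    rw [hFF, Finset.sum_comm]
    refine Finset.sum_congr rfl fun v _ => ?_
    have e1 : c.K τ 0 (c.mid true) x v = M.kb jm x v := by rw [mid_true, kb]
    have e2 : c.K τ (c.mid true) (c.len true - c.mid true) v y = M.kc jm v y := by
      rw [mid_true, len_true, kc]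
      have e3 : 6 * c.k + 3 - (3 * c.k + 3) = 3 * c.k := by omega
      rw [e3]
    rw [e1, e2, ← rho_mul (b0 v) (c0 v)]
    have e4 : ∀ u, c.K τ (d * jm + 1) (d - 1) u v *
        (M.ka jm x u * (rho (M.kb jm x v) (M.kc jm v y) * M.kc jm v y)) =
        (M.ka jm x u * c.K τ (d * jm + 1) (d - 1) u v) *
          (rho (M.kb jm x v) (M.kc jm v y) * M.kc jm v y) := fun u => by ring
    rw [Finset.sum_congr rfl fun u _ => e4 u, ← Finset.sum_mul, kab]
    ring
  have h4 := loss hKER hI hk x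
  have h5 : c.FF τ true x y - ∑ u, ∑ v, c.K τ (d * jm + 1) (d - 1) u v *
      (2 * (M.ka jm x u - M.kb jm x v) ^ 2) ≤ M.Fm jm x y := by
    rw [h1, h3, ← Finset.sum_sub_distrib]
    refine Finset.sum_le_sum fun u _ => ?_
    rw [← Finset.sum_sub_distrib]
    refine Finset.sum_le_sum fun v _ => ?_
    rw [← mul_sub]
    exact mul_le_mul_of_nonneg_left (pt_est _ _ _ (a0 u) (b0 v) (c0 v)) ((k1 _ _).1.nn _ _)
  linarith

theorem Pr_mono' {Ω : Type*} [Fintype Ω] {μ : Ω → ℝ} (hμ : IsPr μ) {E F : Ω → Prop}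
    (h : ∀ ω, E ω → F ω) : Pr μ E ≤ Pr μ F :=
  Finset.sum_le_sum fun ω _ => mul_le_mul_of_nonneg_left (ind_mono (h ω)) (hμ.nn ω)

theorem ofFn_get {m : ℕ} (zz : Fin m → G) {p : ℕ} (hp : p < m) :
    (List.ofFn zz)[p]? = some (zz ⟨p, hp⟩) := by
  rw [List.getElem?_ofFn, dif_pos hp]

/-- PFF. -/
theorem pff (hR : RHOF_S.{u, v}) (hKER : KERF_S.{u}) (hCP : CPLF_S.{u}) (hWL : WLKF_S.{u})
    (hPK : PKSF_S.{u}) (hN : NUMF_S.{u}) : PFF_S.{u, v} := by
  intro G _ _ _ c τ d Val _ a M jm hI W hW x y hxy hadm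
  obtain ⟨n1, n2, -, n4, -, n6, n7, -, -, n10, n11, n12, -⟩ := hN G c
  obtain ⟨c1, c2, -, -, -, -, c7, c8, c9⟩ := hCP G c τ true x y hadm
  obtain ⟨w1, -, w3, w4⟩ := hWL G c τ true x y hadm
  obtain ⟨-, -, -, -, -, -, -, -, -, p10, -⟩ := hPK G c
  have hk : 1 ≤ c.k := by omega
  have hq0 := n6 τ
  set FF := c.FF τ true x y with hFFd
  have hFF0 : 0 < FF := by
    have : (0 : ℝ) < 8 / 10 * c.q τ := by positivity
    linarith
  have hFm := Fm_ge hR hKER hI hk x y c2
  have hFm0 : 0 < M.Fm jm x y := by linarith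
  have hFF2 : FF ≤ 2 * M.Fm jm x y := by linarith
  have hlen := len_true c
  have hmid := mid_true c
  obtain ⟨hja, hjm⟩ := jm_lt hI hk
  have hd : 1 ≤ d := by rcases hI.d1 with h | h <;> omega
  -- numerics
  have hk' : (1 : ℝ) ≤ c.k := by exact_mod_cast hk
  have hkX : ∀ j : ℕ, 1 ≤ j → j ≤ 200 → (10 ^ 6 * (c.k : ℝ)) ^ j ≤ c.X := by
    intro j hj hj'
    refine le_trans ?_ n2
    exact pow_le_pow_right₀ (by linarith) hj'
  have hX1 : 1 ≤ c.X := by linarith
  have hXb : c.X ≤ c.b1 := by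
    refine le_trans ?_ n11
    calc c.X = c.X ^ 1 := (pow_one _).symm
      _ ≤ c.X ^ 50000 := pow_le_pow_right₀ hX1 (by norm_num)
  have hb1 : 1 ≤ c.b1 := hX1.trans hXb
  have hbh : c.b ^ (1 / 2 : ℝ) = c.b1 ^ 2 := by
    rw [← n12, ← Real.rpow_natCast, ← Real.rpow_natCast, ← Real.rpow_mul n10.le]
    norm_num
  -- the mass of the touched vertices
  have key : ∀ (Q : G → Prop) (ε : ℝ), 0 ≤ ε →
      (∀ p, 1 ≤ p → p ≤ 6 * c.k + 2 → ∑ v, ind (Q v) * c.U1 τ true x y p v ≤ ε) →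
      sumL a (fun z => M.pr jm x y z * ind (∃ (i : ℕ) (s : G × Val) (w : G), z[i]? = some s ∧
        (s.1 = w ∨ M.ex s.1 s.2 = w) ∧ Q w)) ≤ FF * ((6 * c.k + 2 : ℕ) * ε) := by
    intro Q ε hε hQ
    refine (master hKER hI hk (ne_of_gt hFF0) (κ := Fin (6 * c.k + 2)) _
      (fun k L => ∃ v, L[(k : ℕ) + 1]? = some v ∧ Q v) ?_).trans ?_
    · rintro z hz ⟨i, s, w, hi, hw, hQw⟩
      have hia : i < a := by
        by_contra hc
        rw [List.getElem?_eq_none (by omega)] at hi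
        cases hi
      obtain ⟨p, p1, p2, p3⟩ := full_get hI x y hi hw
      have h1 : d * i + d ≤ d * a := by
        calc d * i + d = d * (i + 1) := by ring
          _ ≤ d * a := Nat.mul_le_mul_left d hia
      rw [hI.len] at h1
      refine ⟨⟨p - 1, by omega⟩, w, ?_, hQw⟩
      show _[p - 1 + 1]? = some w
      have e1 : p - 1 + 1 = p := by omega
      rw [e1, p3]
    · apply mul_le_mul_of_nonneg_left _ hFF0.le
      have h2 : ∀ k ∈ (Finset.univ : Finset (Fin (6 * c.k + 2))),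
          Pr (c.WL τ true x y) (fun zz => ∃ v, (List.ofFn zz)[(k : ℕ) + 1]? = some v ∧ Q v) ≤
          ε := by
        intro k _
        have hkl : (k : ℕ) + 1 < c.len true + 1 := by rw [hlen]; omega
        refine le_trans ?_ (hQ (k + 1) (by omega) (by omega))
        have h3 : ∀ v, ind (Q v) * c.U1 τ true x y (k + 1) v =
            ∑ zz, c.WL τ true x y zz * (ind (Q v) * ind (zz ⟨k + 1, hkl⟩ = v)) := by
          intro v
          rw [← w3 (k + 1) hkl v]
          unfold Pr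
          rw [Finset.mul_sum]
          exact Finset.sum_congr rfl fun zz _ => by ring
        rw [Finset.sum_congr rfl fun v _ => h3 v, Finset.sum_comm]
        refine Finset.sum_le_sum fun zz _ => ?_
        rw [← Finset.mul_sum]
        apply mul_le_mul_of_nonneg_left _ (w1.nn zz)
        rw [Finset.sum_eq_single (zz ⟨k + 1, hkl⟩)]
        · rw [ind_of rfl, mul_one]
          apply ind_mono
          rintro ⟨v, hv, hQv⟩
          rw [ofFn_get zz hkl] at hv
          rw [Option.some.inj hv]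
          exact hQv
        · intro v _ hv
          have hv' : ¬ (zz ⟨k + 1, hkl⟩ = v) := fun h => hv h.symm
          rw [ind_not hv', mul_zero]
        · intro h
          exact absurd (Finset.mem_univ _) h
      refine (Finset.sum_le_card_nsmul _ _ ε h2).trans (le_of_eq ?_)
      rw [Finset.card_univ, Fintype.card_fin, nsmul_eq_mul]
  refine ⟨hxy, ?_, ?_, ?_, ?_⟩
  · linarith
  · -- coincidences
    refine (master hKER hI hk (ne_of_gt hFF0) (κ := Fin (6 * c.k + 4) × Fin (6 * c.k + 4)) _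
      (fun k L => (k.1 : ℕ) < k.2 ∧ ¬ ((k.1 : ℕ) = 0 ∧ (k.2 : ℕ) = 6 * c.k + 3) ∧
        L[(k.1 : ℕ)]? = L[(k.2 : ℕ)]?) ?_).trans ?_
    · rintro z hz ⟨i, j, s, s', w, hij, hi, hj, hw, h⟩
      have hia : i < a := by
        by_contra hc
        rw [List.getElem?_eq_none (by omega)] at hi
        cases hi
      have hja' : j < a := by
        by_contra hc
        rw [List.getElem?_eq_none (by omega)] at hj
        cases hj
      obtain ⟨p, p1, p2, p3⟩ := full_get hI x y hi hw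
      have h1 : ∀ i, i < a → d * i + d ≤ 6 * c.k + 2 := by
        intro i hia
        rw [← hI.len]
        calc d * i + d = d * (i + 1) := by ring
          _ ≤ d * a := Nat.mul_le_mul_left d hia
      have h1i := h1 i hia
      have h1j := h1 j hja'
      rcases h with ⟨hlt, hw'⟩ | rfl | rfl
      · obtain ⟨p', p1', p2', p3'⟩ := full_get hI x y hj hw'
        have h2 : d * i + d ≤ d * j := by
          calc d * i + d = d * (i + 1) := by ring
            _ ≤ d * j := Nat.mul_le_mul_left d hlt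
        refine ⟨(⟨p, by omega⟩, ⟨p', by omega⟩), ?_, ?_, ?_⟩
        · show p < p'
          omega
        · show ¬ (p = 0 ∧ p' = 6 * c.k + 3)
          omega
        · show _[p]? = _[p']?
          rw [p3, p3']
      · refine ⟨(⟨0, by omega⟩, ⟨p, by omega⟩), ?_, ?_, ?_⟩
        · show 0 < p
          omega
        · show ¬ (0 = 0 ∧ p = 6 * c.k + 3)
          omega
        · show _[0]? = _[p]?
          rw [p3, List.getElem?_cons_zero]
      · refine ⟨(⟨p, by omega⟩, ⟨6 * c.k + 3, by omega⟩), ?_, ?_, ?_⟩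
        · show p < 6 * c.k + 3
          omega
        · show ¬ (p = 0 ∧ 6 * c.k + 3 = 6 * c.k + 3)
          omega
        · show _[p]? = _[6 * c.k + 3]?
          have hvl := vl_length hI.d1 M.ex z
          rw [hz, hI.len] at hvl
          rw [p3, List.getElem?_cons_succ, List.getElem?_append_right (by omega), hvl,
            Nat.sub_self, List.getElem?_cons_zero]
    · have h2 : ∀ k ∈ (Finset.univ : Finset (Fin (6 * c.k + 4) × Fin (6 * c.k + 4))),
          Pr (c.WL τ true x y) (fun zz => (k.1 : ℕ) < k.2 ∧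
            ¬ ((k.1 : ℕ) = 0 ∧ (k.2 : ℕ) = 6 * c.k + 3) ∧
            (List.ofFn zz)[(k.1 : ℕ)]? = (List.ofFn zz)[(k.2 : ℕ)]?) ≤ 4 / c.b1 := by
        rintro ⟨i, j⟩ _
        by_cases hc : (i : ℕ) < j ∧ ¬ ((i : ℕ) = 0 ∧ (j : ℕ) = 6 * c.k + 3)
        · have hi : (i : ℕ) < c.len true + 1 := by rw [hlen]; omega
          have hj : (j : ℕ) < c.len true + 1 := by rw [hlen]; omega
          refine le_trans ?_ (w4 i j hi hj hc.1 (by rw [hlen]; exact hc.2))
          refine Pr_mono' w1 fun zz hzz => ?_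
          have h3 := hzz.2.2
          rw [ofFn_get zz hi, ofFn_get zz hj] at h3
          exact Option.some.inj h3
        · have h3 : Pr (c.WL τ true x y) (fun zz => ((i, j).1 : ℕ) < (i, j).2 ∧
            ¬ (((i, j).1 : ℕ) = 0 ∧ ((i, j).2 : ℕ) = 6 * c.k + 3) ∧
            (List.ofFn zz)[((i, j).1 : ℕ)]? = (List.ofFn zz)[((i, j).2 : ℕ)]?) = 0 := by
            unfold Pr
            refine Finset.sum_eq_zero fun zz _ => ?_
            rw [ind_not (fun h => hc ⟨h.1, h.2.1⟩), mul_zero]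
          rw [h3]
          positivity
      have h3 := Finset.sum_le_card_nsmul _ _ _ h2
      rw [Finset.card_univ, Fintype.card_prod, Fintype.card_fin, nsmul_eq_mul] at h3
      refine (mul_le_mul_of_nonneg_left h3 hFF0.le).trans ?_
      push_cast
      have h4 : 320 * (6 * (c.k : ℝ) + 4) ^ 2 ≤ c.b1 := by
        refine le_trans ?_ ((hkX 2 (by norm_num) (by norm_num)).trans hXb)
        nlinarith
      have h5 : (6 * (c.k : ℝ) + 4) * (6 * c.k + 4) * (4 / c.b1) ≤ 1 / 80 := by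
        rw [mul_div_assoc', div_le_div_iff₀ n10 (by norm_num)]
        nlinarith
      calc FF * ((6 * (c.k : ℝ) + 4) * (6 * c.k + 4) * (4 / c.b1)) ≤ FF * (1 / 80) :=
            mul_le_mul_of_nonneg_left h5 hFF0.le
        _ ≤ M.Fm jm x y / 40 := by linarith
  · -- light sets
    refine (key W (5 / 2 * (1 / c.X ^ 3)) (by positivity) ?_).trans ?_
    · intro p hp1 hp2
      have hU : ∀ (N : Matrix G G ℝ) (x' : G), c.TK 1 N →
          (∀ v, c.U1 τ true x y p v ≤ 5 / 4 * (2 * N x' v)) →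
          ∑ v, ind (W v) * c.U1 τ true x y p v ≤ 5 / 2 * (1 / c.X ^ 3) := by
        intro N x' hN hv
        have h1 := hW N hN x'
        calc ∑ v, ind (W v) * c.U1 τ true x y p v ≤
            ∑ v, 5 / 2 * (ind (W v) * N x' v) := by
              refine Finset.sum_le_sum fun v _ => ?_
              have := mul_le_mul_of_nonneg_left (hv v) (ind_nonneg (W v))
              linarith
          _ = 5 / 2 * ∑ v, ind (W v) * N x' v := by rw [Finset.mul_sum]
          _ ≤ 5 / 2 * (1 / c.X ^ 3) := mul_le_mul_of_nonneg_left h1 (by norm_num)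
      by_cases hpm : p ≤ c.mid true
      · refine hU (c.hk τ true p p 1) x
          (p10 τ true p p 1 hp1 le_rfl (by omega) (by rw [ha_true]; omega)).1 fun v => ?_
        refine (c7 p v hpm).trans (le_of_eq ?_)
        unfold Ctx.hk
        ring
      · rw [hmid] at hpm
        refine hU (c.hk τ false (c.len true - p) (c.len true - p) 1) y
          (p10 τ false _ _ 1 (by rw [hlen]; omega) le_rfl (by omega)
            (by rw [ha_false, hlen]; omega)).1 fun v => ?_
        refine (c8 p v (by rw [hmid]; omega) (by rw [hlen]; omega)).trans (le_of_eq ?_)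
        unfold Ctx.hk
        rw [ha_false]
        ring
    · push_cast
      have h4 : 200 * (6 * (c.k : ℝ) + 2) ≤ c.X ^ 3 := by
        have h5 := hkX 1 (by norm_num) (by norm_num)
        rw [pow_one] at h5
        have h6 : c.X ≤ c.X ^ 3 := by
          calc c.X = c.X ^ 1 := (pow_one _).symm
            _ ≤ c.X ^ 3 := pow_le_pow_right₀ hX1 (by norm_num)
        linarith
      have hX3 : 0 < c.X ^ 3 := by positivity
      have h5 : (6 * (c.k : ℝ) + 2) * (5 / 2 * (1 / c.X ^ 3)) ≤ 1 / 80 := by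
        have e1 : (6 * (c.k : ℝ) + 2) * (5 / 2 * (1 / c.X ^ 3)) =
            ((6 * (c.k : ℝ) + 2) * (5 / 2)) / c.X ^ 3 := by ring
        rw [e1, div_le_div_iff₀ hX3 (by norm_num)]
        linarith
      calc FF * ((6 * (c.k : ℝ) + 2) * (5 / 2 * (1 / c.X ^ 3))) ≤ FF * (1 / 80) :=
            mul_le_mul_of_nonneg_left h5 hFF0.le
        _ ≤ M.Fm jm x y / 40 := by linarith
  · -- one vertex
    intro w
    have h1 := key (fun v => v = w) (4 / c.b1 ^ 2) (by positivity) (by
      intro p hp1 hp2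
      rw [Finset.sum_eq_single w]
      · rw [ind_of rfl, one_mul, ← hbh]
        exact c9 p w (by omega) (by rw [hlen]; omega)
      · intro v _ hv
        rw [ind_not hv, zero_mul]
      · intro h
        exact absurd (Finset.mem_univ _) h)
    have h2 : sumL a (fun z => M.pr jm x y z * ind (∃ (i : ℕ) (s : G × Val), z[i]? = some s ∧
        (s.1 = w ∨ M.ex s.1 s.2 = w))) = sumL a (fun z => M.pr jm x y z *
        ind (∃ (i : ℕ) (s : G × Val) (w' : G), z[i]? = some s ∧
        (s.1 = w' ∨ M.ex s.1 s.2 = w') ∧ w' = w)) := by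
      refine sumL_congr' _ _ _ fun z _ => ?_
      congr 2
      apply propext
      constructor
      · rintro ⟨i, s, h3, h4⟩
        exact ⟨i, s, w, h3, h4, rfl⟩
      · rintro ⟨i, s, w', h3, h4, rfl⟩
        exact ⟨i, s, h3, h4⟩
    rw [h2]
    refine h1.trans ?_
    push_cast
    have h3 : 8 * (6 * (c.k : ℝ) + 2) ≤ c.X ^ 2 * c.b1 := by
      have h5 := hkX 1 (by norm_num) (by norm_num)
      rw [pow_one] at h5
      have h6 : c.X ≤ c.X ^ 2 := by
        calc c.X = c.X ^ 1 := (pow_one _).symm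
          _ ≤ c.X ^ 2 := pow_le_pow_right₀ hX1 (by norm_num)
      have h7 : c.X ^ 2 * 1 ≤ c.X ^ 2 * c.b1 := mul_le_mul_of_nonneg_left hb1 (by positivity)
      linarith
    have h4 : 2 * ((6 * (c.k : ℝ) + 2) * (4 / c.b1 ^ 2)) ≤ c.X ^ 2 / c.b1 := by
      have e1 : 2 * ((6 * (c.k : ℝ) + 2) * (4 / c.b1 ^ 2)) =
          (8 * (6 * (c.k : ℝ) + 2)) / c.b1 ^ 2 := by ring
      rw [e1, div_le_div_iff₀ (by positivity) n10]
      calc 8 * (6 * (c.k : ℝ) + 2) * c.b1 ≤ c.X ^ 2 * c.b1 * c.b1 :=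
            mul_le_mul_of_nonneg_right h3 n10.le
        _ = c.X ^ 2 * c.b1 ^ 2 := by ring
    calc FF * ((6 * (c.k : ℝ) + 2) * (4 / c.b1 ^ 2)) ≤
        (2 * M.Fm jm x y) * ((6 * (c.k : ℝ) + 2) * (4 / c.b1 ^ 2)) :=
          mul_le_mul_of_nonneg_right hFF2 (by positivity)
      _ = 2 * ((6 * (c.k : ℝ) + 2) * (4 / c.b1 ^ 2)) * M.Fm jm x y := by ring
      _ ≤ c.X ^ 2 / c.b1 * M.Fm jm x y := mul_le_mul_of_nonneg_right h4 hFm0.le

end Pool.Agent.Lib.MP_688fd0_co.TF.H54
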