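import Pool.Agent.Lib.MP_688fd0_co.TF.Iface4

/-!
# Theorem F: labelled walks and the coupled link law (for module PFF)
-/

set_option linter.unusedSectionVars false

namespace Pool.Agent.Lib.MP_688fd0_co.TF.H54

open Pool.Agent.Lib.MP_688fd0_co.TE

universe u v

section sums

variable {S : Type*} [Fintype S]

theorem sumL_congr' : ∀ (n : ℕ) (F H : List S → ℝ), (∀ l, l.length = n → F l = H l) →
    sumL n F = sumL n H
  | 0, F, H, h => h [] rfl
  | n + 1, F, H, h => by
    show ∑ s, sumL n (fun l => F (s :: l)) = ∑ s, sumL n (fun l => H (s :: l))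
    exact Finset.sum_congr rfl fun s _ => sumL_congr' n _ _ fun l hl => h _ (by simp [hl])

theorem sumL_mono' : ∀ (n : ℕ) (F H : List S → ℝ), (∀ l, l.length = n → F l ≤ H l) →
    sumL n F ≤ sumL n H
  | 0, F, H, h => h [] rfl
  | n + 1, F, H, h => by
    show ∑ s, sumL n (fun l => F (s :: l)) ≤ ∑ s, sumL n (fun l => H (s :: l))
    exact Finset.sum_le_sum fun s _ => sumL_mono' n _ _ fun l hl => h _ (by simp [hl])

theorem sumL_mul' : ∀ (n : ℕ) (F : List S → ℝ) (c : ℝ),
    sumL n (fun l => c * F l) = c * sumL n F
  | 0, F, c => rfl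
  | n + 1, F, c => by
    show ∑ s, sumL n (fun l => c * F (s :: l)) = c * ∑ s, sumL n (fun l => F (s :: l))
    rw [Finset.mul_sum]
    exact Finset.sum_congr rfl fun s _ => sumL_mul' n _ c

theorem sumL_sum' {κ : Type*} [Fintype κ] : ∀ (n : ℕ) (F : κ → List S → ℝ),
    sumL n (fun l => ∑ k, F k l) = ∑ k, sumL n (F k)
  | 0, F => rfl
  | n + 1, F => by
    show ∑ s, sumL n (fun l => ∑ k, F k (s :: l)) = ∑ k, ∑ s, sumL n (fun l => F k (s :: l))
    rw [Finset.sum_comm]
    exact Finset.sum_congr rfl fun s _ => sumL_sum' n _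

end sums

section lists

variable {V : Type u} {Val : Type v}

/-- The list of the vertices of a labelled walk: `d = 2` two vertices per site, else one. -/
def vl (d : ℕ) (ex : V → Val → V) : List (V × Val) → List V
  | [] => []
  | s :: l => if d = 2 then s.1 :: ex s.1 s.2 :: vl d ex l else s.1 :: vl d ex l

theorem vl_two (ex : V → Val → V) (s : V × Val) (l : List (V × Val)) :
    vl 2 ex (s :: l) = s.1 :: ex s.1 s.2 :: vl 2 ex l := rfl

theorem vl_one (ex : V → Val → V) (s : V × Val) (l : List (V × Val)) :
    vl 1 ex (s :: l) = s.1 :: vl 1 ex l := rfl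

theorem vl_length {d : ℕ} (hd : d = 1 ∨ d = 2) (ex : V → Val → V) (z : List (V × Val)) :
    (vl d ex z).length = d * z.length := by
  induction z with
  | nil => simp [vl]
  | cons s l ih =>
    rcases hd with rfl | rfl
    · rw [vl_one, List.length_cons, ih, List.length_cons]; ring
    · rw [vl_two, List.length_cons, List.length_cons, ih, List.length_cons]; ring

theorem vl_get {d : ℕ} (hd : d = 1 ∨ d = 2) (ex : V → Val → V) (hex : d = 1 → ∀ u e, ex u e = u)
    (z : List (V × Val)) : ∀ (i : ℕ) (s : V × Val), z[i]? = some s →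
    (vl d ex z)[d * i]? = some s.1 ∧ (vl d ex z)[d * i + (d - 1)]? = some (ex s.1 s.2) := by
  induction z with
  | nil => intro i s h; simp at h
  | cons t l ih =>
    intro i s h
    rcases hd with rfl | rfl
    · rw [vl_one]
      cases i with
      | zero =>
        simp only [List.getElem?_cons_zero, Option.some.injEq] at h
        subst h
        simp [hex rfl]
      | succ i =>
        rw [List.getElem?_cons_succ] at h
        obtain ⟨h1, h2⟩ := ih i s h
        have e1 : 1 * (i + 1) = 1 * i + 1 := by ring
        have e2 : 1 * (i + 1) + (1 - 1) = 1 * i + (1 - 1) + 1 := by omega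
        rw [e1, List.getElem?_cons_succ, h1]
        refine ⟨rfl, ?_⟩
        rw [hex rfl]
    · rw [vl_two]
      cases i with
      | zero =>
        simp only [List.getElem?_cons_zero, Option.some.injEq] at h
        subst h
        simp
      | succ i =>
        rw [List.getElem?_cons_succ] at h
        obtain ⟨h1, h2⟩ := ih i s h
        have e1 : 2 * (i + 1) = 2 * i + 1 + 1 := by ring
        have e2 : 2 * (i + 1) + (2 - 1) = 2 * i + (2 - 1) + 1 + 1 := by omega
        rw [e2, List.getElem?_cons_succ, List.getElem?_cons_succ, h2]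
        refine ⟨?_, rfl⟩
        rw [e1, List.getElem?_cons_succ, List.getElem?_cons_succ, h1]

end lists

section walks

variable {G : Type u}

/-- Weight of a list of vertices. -/
noncomputable def wl (cc : ℕ → Matrix G G ℝ) : ℕ → G → List G → G → ℝ
  | i, x, [], y => cc (i + 1) x y
  | i, x, v :: l, y => cc (i + 1) x v * wl cc (i + 1) v l y

/-- Reweighting. -/
theorem wl_cpl (cc : ℕ → Matrix G G ℝ) (m : ℕ) (ρ : G → ℝ) (y : G) (l : List G) :
    ∀ (i : ℕ) (x : G),
    (m ≤ i → wl (cpl cc m ρ) i x l y = wl cc i x l y) ∧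
    (i < m → m ≤ i + l.length →
      wl (cpl cc m ρ) i x l y = wl cc i x l y * (l[m - i - 1]?).elim 0 ρ) := by
  induction l with
  | nil =>
    intro i x
    refine ⟨fun h => ?_, fun h h' => ?_⟩
    · show cpl cc m ρ (i + 1) x y = cc (i + 1) x y
      unfold cpl
      rw [if_neg (by omega)]
    · simp only [List.length_nil] at h'
      omega
  | cons v l ih =>
    intro i x
    refine ⟨fun h => ?_, fun h h' => ?_⟩
    · show cpl cc m ρ (i + 1) x v * wl (cpl cc m ρ) (i + 1) v l y =
        cc (i + 1) x v * wl cc (i + 1) v l y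
      rw [(ih (i + 1) v).1 (by omega)]
      unfold cpl
      rw [if_neg (by omega)]
    · show cpl cc m ρ (i + 1) x v * wl (cpl cc m ρ) (i + 1) v l y =
        cc (i + 1) x v * wl cc (i + 1) v l y * _
      by_cases hm : i + 1 = m
      · rw [(ih (i + 1) v).1 (by omega)]
        have e1 : m - i - 1 = 0 := by omega
        rw [e1, List.getElem?_cons_zero]
        unfold cpl
        rw [if_pos hm]
        show cc (i + 1) x v * ρ v * _ = cc (i + 1) x v * _ * ρ v
        ring
      · rw [(ih (i + 1) v).2 (by omega) (by rw [List.length_cons] at h'; omega)]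
        have e1 : m - i - 1 = (m - (i + 1) - 1) + 1 := by omega
        rw [e1, List.getElem?_cons_succ]
        unfold cpl
        rw [if_neg hm]
        ring

variable [Fintype G] [DecidableEq G]

/-- The law of a sequence of vertices as a sum over lists. -/
theorem sum_fin (cx : ℕ → Matrix G G ℝ) (y : G) : ∀ (n : ℕ) (i : ℕ) (x : G) (Φ : List G → ℝ),
    ∑ zz : Fin (n + 2) → G, ind (zz 0 = x ∧ zz (Fin.last (n + 1)) = y) *
      (∏ j : Fin (n + 1), cx (i + j + 1) (zz j.castSucc) (zz j.succ)) * Φ (List.ofFn zz) =
      sumL n (fun l => wl cx i x l y * Φ (x :: (l ++ [y]))) := by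
  intro n
  induction n with
  | zero =>
    intro i x Φ
    rw [← (Fin.consEquiv (fun _ : Fin 2 => G)).sum_comp, Fintype.sum_prod_type]
    have h1 : ∀ x' : G, ∑ zz : Fin 1 → G,
        ind ((Fin.consEquiv (fun _ : Fin 2 => G)) (x', zz) 0 = x ∧
          (Fin.consEquiv (fun _ : Fin 2 => G)) (x', zz) (Fin.last 1) = y) *
        (∏ j : Fin 1, cx (i + j + 1) ((Fin.consEquiv (fun _ : Fin 2 => G)) (x', zz) j.castSucc)
          ((Fin.consEquiv (fun _ : Fin 2 => G)) (x', zz) j.succ)) *
        Φ (List.ofFn ((Fin.consEquiv (fun _ : Fin 2 => G)) (x', zz))) =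
        ind (x' = x) * (cx (i + 1) x y * Φ [x, y]) := by
      intro x'
      have h2 : ∀ zz : Fin 1 → G,
          ind ((Fin.consEquiv (fun _ : Fin 2 => G)) (x', zz) 0 = x ∧
            (Fin.consEquiv (fun _ : Fin 2 => G)) (x', zz) (Fin.last 1) = y) *
          (∏ j : Fin 1, cx (i + j + 1) ((Fin.consEquiv (fun _ : Fin 2 => G)) (x', zz) j.castSucc)
            ((Fin.consEquiv (fun _ : Fin 2 => G)) (x', zz) j.succ)) *
          Φ (List.ofFn ((Fin.consEquiv (fun _ : Fin 2 => G)) (x', zz))) =
          (fun v : G => ind (x' = x ∧ v = y) * cx (i + 1) x' v * Φ [x', v])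
            ((Equiv.funUnique (Fin 1) G) zz) := by
        intro zz
        rw [Fin.prod_univ_one, List.ofFn_succ, List.ofFn_succ, List.ofFn_zero]
        rfl
      rw [Finset.sum_congr rfl fun zz _ => h2 zz,
        (Equiv.funUnique (Fin 1) G).sum_comp
          (fun v : G => ind (x' = x ∧ v = y) * cx (i + 1) x' v * Φ [x', v]),
        Finset.sum_eq_single y]
      · by_cases hx : x' = x
        · rw [ind_of hx, ind_of ⟨hx, rfl⟩, hx]
          ring
        · rw [ind_not hx, ind_not (fun h => hx h.1)]
          ring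
      · intro v _ hv
        rw [ind_not (fun h => hv h.2)]
        ring
      · intro h
        exact absurd (Finset.mem_univ _) h
    rw [Finset.sum_congr rfl fun x' _ => h1 x', Finset.sum_eq_single x]
    · rw [ind_of rfl, one_mul]
      rfl
    · intro v _ hv
      rw [ind_not hv, zero_mul]
    · intro h
      exact absurd (Finset.mem_univ _) h
  | succ n ih =>
    intro i x Φ
    rw [← (Fin.consEquiv (fun _ : Fin (n + 3) => G)).sum_comp, Fintype.sum_prod_type]
    have h1 : ∀ x' : G, ∑ zz : Fin (n + 2) → G,
        ind ((Fin.consEquiv (fun _ : Fin (n + 3) => G)) (x', zz) 0 = x ∧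
          (Fin.consEquiv (fun _ : Fin (n + 3) => G)) (x', zz) (Fin.last (n + 2)) = y) *
        (∏ j : Fin (n + 2), cx (i + j + 1)
          ((Fin.consEquiv (fun _ : Fin (n + 3) => G)) (x', zz) j.castSucc)
          ((Fin.consEquiv (fun _ : Fin (n + 3) => G)) (x', zz) j.succ)) *
        Φ (List.ofFn ((Fin.consEquiv (fun _ : Fin (n + 3) => G)) (x', zz))) =
        ind (x' = x) * ∑ v, cx (i + 1) x v *
          sumL n (fun l => wl cx (i + 1) v l y * Φ (x :: (v :: (l ++ [y])))) := by
      intro x'
      by_cases hx : x' = x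
      · subst hx
        rw [ind_of rfl, one_mul]
        have h2 : ∀ v, cx (i + 1) x' v *
            sumL n (fun l => wl cx (i + 1) v l y * Φ (x' :: (v :: (l ++ [y])))) =
            ∑ zz : Fin (n + 2) → G, cx (i + 1) x' v *
              (ind (zz 0 = v ∧ zz (Fin.last (n + 1)) = y) *
              (∏ j : Fin (n + 1), cx (i + 1 + j + 1) (zz j.castSucc) (zz j.succ)) *
              Φ (x' :: List.ofFn zz)) := by
          intro v
          rw [← ih (i + 1) v (fun L => Φ (x' :: L)), Finset.mul_sum]
        rw [Finset.sum_congr rfl fun v _ => h2 v, Finset.sum_comm]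
        refine Finset.sum_congr rfl fun zz _ => ?_
        rw [Finset.sum_eq_single (zz 0)]
        · have e1 : ind ((Fin.consEquiv (fun _ : Fin (n + 3) => G)) (x', zz) 0 = x' ∧
              (Fin.consEquiv (fun _ : Fin (n + 3) => G)) (x', zz) (Fin.last (n + 2)) = y) =
              ind (zz 0 = zz 0 ∧ zz (Fin.last (n + 1)) = y) := by
            congr 1
            apply propext
            constructor
            · rintro ⟨-, h⟩
              exact ⟨rfl, h⟩
            · rintro ⟨-, h⟩
              exact ⟨rfl, h⟩
          rw [e1, Fin.prod_univ_succ]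
          have e2 : List.ofFn ((Fin.consEquiv (fun _ : Fin (n + 3) => G)) (x', zz)) =
              x' :: List.ofFn zz := by
            rw [List.ofFn_succ]
            rfl
          rw [e2]
          have e3 : (∏ j : Fin (n + 1), cx (i + (j.succ : Fin (n + 2)) + 1)
              ((Fin.consEquiv (fun _ : Fin (n + 3) => G)) (x', zz) j.succ.castSucc)
              ((Fin.consEquiv (fun _ : Fin (n + 3) => G)) (x', zz) j.succ.succ)) =
              ∏ j : Fin (n + 1), cx (i + 1 + j + 1) (zz j.castSucc) (zz j.succ) := by
            refine Finset.prod_congr rfl fun j _ => ?_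
            have e4 : i + ((j.succ : Fin (n + 2)) : ℕ) + 1 = i + 1 + j + 1 := by
              rw [Fin.val_succ]; ring
            rw [e4]
            rfl
          rw [e3]
          have e5 : cx (i + ((0 : Fin (n + 2)) : ℕ) + 1)
              ((Fin.consEquiv (fun _ : Fin (n + 3) => G)) (x', zz) (0 : Fin (n + 2)).castSucc)
              ((Fin.consEquiv (fun _ : Fin (n + 3) => G)) (x', zz) (0 : Fin (n + 2)).succ) =
              cx (i + 1) x' (zz 0) := rfl
          rw [e5]
          ring
        · intro v _ hv
          rw [ind_not (fun h => hv h.1.symm)]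
          ring
        · intro h
          exact absurd (Finset.mem_univ _) h
      · rw [ind_not hx, zero_mul]
        refine Finset.sum_eq_zero fun zz _ => ?_
        rw [ind_not (fun h => hx h.1)]
        ring
    rw [Finset.sum_congr rfl fun x' _ => h1 x', Finset.sum_eq_single x]
    · rw [ind_of rfl, one_mul]
      show _ = ∑ v, sumL n (fun l => wl cx i x (v :: l) y * Φ (x :: ((v :: l) ++ [y])))
      refine Finset.sum_congr rfl fun v _ => ?_
      rw [← sumL_mul']
      refine sumL_congr' n _ _ fun l _ => ?_
      show cx (i + 1) x v * (wl cx (i + 1) v l y * _) = cx (i + 1) x v * wl cx (i + 1) v l y * _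
      rw [mul_assoc]
      rfl
    · intro v _ hv
      rw [ind_not hv, zero_mul]
    · intro h
      exact absurd (Finset.mem_univ _) h

end walks

end Pool.Agent.Lib.MP_688fd0_co.TF.H54
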