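import Pool.Agent.Lib.MP_688fd0_co.TF.H54.Push

/-!
# Theorem F: labelled walks of an instance (for module PFF)
-/

set_option linter.unusedSectionVars false

namespace Pool.Agent.Lib.MP_688fd0_co.TF.H54

open Pool.Agent.Lib.MP_688fd0_co.TE

universe u v

variable {G : Type u} [Group G] [Fintype G] [DecidableEq G]

/-- Labelled walks to vertex lists. -/
theorem push {c : Ctx G} {τ : Bool} {d : ℕ} {Val : Type v} [Fintype Val] {a : ℕ}
    {M : LM G Val a} {jm : ℕ} (hI : c.Inst τ d M jm) (hK : ∀ p, c.K τ p 1 = c.cc τ (p + 1))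
    (y : G) : ∀ (r j : ℕ) (x : G) (F : List G → ℝ),
    sumL r (fun z => M.pw j x z y * F (vl d M.ex z)) =
      sumL (d * r) (fun l => wl (c.cc τ) (d * j) x l y * F l) := by
  intro r
  induction r with
  | zero =>
    intro j x F
    rw [Nat.mul_zero]
    show M.C j x y * F [] = c.cc τ (d * j + 1) x y * F []
    rw [hI.C]
  | succ r ih =>
    intro j x F
    show (∑ s : G × Val, sumL r (fun l => M.C j x s.1 * M.kap j s.1 s.2 *
      M.pw (j + 1) (M.ex s.1 s.2) l y * F (vl d M.ex (s :: l)))) = _
    rw [Fintype.sum_prod_type]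
    rcases hI.d1 with rfl | rfl
    · have e1 : 1 * (r + 1) = 1 * r + 1 := by ring
      rw [e1]
      show _ = ∑ u, sumL (1 * r) (fun l => c.cc τ (1 * j + 1) x u *
        wl (c.cc τ) (1 * j + 1) u l y * F (u :: l))
      refine Finset.sum_congr rfl fun u _ => ?_
      have h1 : ∀ e : Val, sumL r (fun l => M.C j x u * M.kap j u e *
          M.pw (j + 1) (M.ex u e) l y * F (vl 1 M.ex ((u, e) :: l))) =
          M.kap j u e * (M.C j x u *
            sumL (1 * r) (fun l => wl (c.cc τ) (1 * (j + 1)) u l y * F (u :: l))) := by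
        intro e
        have h2 := ih (j + 1) u (fun l => F (u :: l))
        have h3 : ∀ l : List (G × Val), M.C j x u * M.kap j u e *
            M.pw (j + 1) (M.ex u e) l y * F (vl 1 M.ex ((u, e) :: l)) =
            (M.C j x u * M.kap j u e) * (M.pw (j + 1) u l y * F (u :: vl 1 M.ex l)) := by
          intro l
          rw [hI.lev rfl, vl_one]
          ring
        rw [sumL_congr' r _ _ fun l _ => h3 l, sumL_mul', h2]
        ring
      rw [Finset.sum_congr rfl fun e _ => h1 e, ← Finset.sum_mul]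
      have h4 : ∑ e, M.kap j u e = 1 := by
        have h5 := hI.kap j u u
        have h6 : ∀ e, M.kap j u e * ind (M.ex u e = u) = M.kap j u e := by
          intro e
          rw [ind_of (hI.lev rfl u e), mul_one]
        rw [Finset.sum_congr rfl fun e _ => h6 e] at h5
        rw [h5]
        show (1 : Matrix G G ℝ) u u = 1
        rw [Matrix.one_apply_eq]
      rw [h4, one_mul, ← sumL_mul']
      refine sumL_congr' _ _ _ fun l _ => ?_
      rw [hI.C]
      have e2 : 1 * (j + 1) = 1 * j + 1 := by ring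
      rw [e2]
      ring
    · have e1 : 2 * (r + 1) = 2 * r + 1 + 1 := by ring
      rw [e1]
      show _ = ∑ u, ∑ v, sumL (2 * r) (fun l => c.cc τ (2 * j + 1) x u *
        (c.cc τ (2 * j + 1 + 1) u v * wl (c.cc τ) (2 * j + 1 + 1) v l y) * F (u :: v :: l))
      refine Finset.sum_congr rfl fun u _ => ?_
      have h1 : ∀ e : Val, sumL r (fun l => M.C j x u * M.kap j u e *
          M.pw (j + 1) (M.ex u e) l y * F (vl 2 M.ex ((u, e) :: l))) =
          ∑ v, (M.kap j u e * ind (M.ex u e = v)) * (M.C j x u *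
            sumL (2 * r) (fun l => wl (c.cc τ) (2 * (j + 1)) v l y * F (u :: v :: l))) := by
        intro e
        rw [Finset.sum_eq_single (M.ex u e)]
        · have h2 := ih (j + 1) (M.ex u e) (fun l => F (u :: M.ex u e :: l))
          have h3 : ∀ l : List (G × Val), M.C j x u * M.kap j u e *
              M.pw (j + 1) (M.ex u e) l y * F (vl 2 M.ex ((u, e) :: l)) =
              (M.C j x u * M.kap j u e) *
                (M.pw (j + 1) (M.ex u e) l y * F (u :: M.ex u e :: vl 2 M.ex l)) := by
            intro l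
            rw [vl_two]
            ring
          rw [sumL_congr' r _ _ fun l _ => h3 l, sumL_mul', h2, ind_of rfl]
          ring
        · intro v _ hv
          rw [ind_not (fun h => hv h.symm)]
          ring
        · intro h
          exact absurd (Finset.mem_univ _) h
      rw [Finset.sum_congr rfl fun e _ => h1 e, Finset.sum_comm]
      refine Finset.sum_congr rfl fun v _ => ?_
      rw [← Finset.sum_mul, hI.kap j u v]
      show c.K τ (2 * j + 1) 1 u v * _ = _
      rw [hK, hI.C, ← mul_assoc, ← sumL_mul']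
      refine sumL_congr' _ _ _ fun l _ => ?_
      have e2 : 2 * (j + 1) = 2 * j + 1 + 1 := by ring
      rw [e2]
      ring

/-- The three kernels at the mid slot. -/
theorem mid_ker (hKER : KERF_S.{u}) {c : Ctx G} {τ : Bool} {d : ℕ} {Val : Type v}
    [Fintype Val] {a : ℕ} {M : LM G Val a} {jm : ℕ} (hI : c.Inst τ d M jm) (hja : jm < a) :
    (∀ x u, M.ka jm x u = c.K τ 0 (d * jm + 1) x u) ∧
    (∀ x v, M.kb jm x v = c.K τ 0 (3 * c.k + 3) x v) ∧
    (∀ v y, M.kc jm v y = c.K τ (3 * c.k + 3) (3 * c.k) v y) ∧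
    (∀ x v, ∑ u, M.ka jm x u * c.K τ (d * jm + 1) (d - 1) u v = M.kb jm x v) := by
  obtain ⟨-, k2, -⟩ := hKER G c τ
  have hd : 1 ≤ d := by rcases hI.d1 with h | h <;> omega
  have hmid := hI.mid
  have hlen := hI.len
  have ha : ∀ x u, M.ka jm x u = c.K τ 0 (d * jm + 1) x u := by
    intro x u
    show M.fk 0 jm x u = _
    rw [hI.fk 0 jm x u (by omega), Nat.mul_zero]
  have hb0 : ∀ x v, ∑ u, M.ka jm x u * c.K τ (d * jm + 1) (d - 1) u v =
      c.K τ 0 (3 * c.k + 3) x v := by
    intro x v
    have e1 : 3 * c.k + 3 = (d * jm + 1) + (d - 1) := by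
      rw [← hmid, Nat.mul_add]; omega
    rw [e1, k2, Matrix.mul_apply]
    refine Finset.sum_congr rfl fun u _ => ?_
    rw [ha, Nat.zero_add]
  have hb1 : ∀ x v, M.kb jm x v = ∑ u, M.ka jm x u * c.K τ (d * jm + 1) (d - 1) u v := by
    intro x v
    show (∑ u, ∑ e, M.fk 0 jm x u * M.kap jm u e * ind (M.ex u e = v)) = _
    refine Finset.sum_congr rfl fun u _ => ?_
    rw [← hI.kap jm u v, Finset.mul_sum]
    refine Finset.sum_congr rfl fun e _ => ?_
    show _ = M.fk 0 jm x u * _
    ring
  refine ⟨ha, fun x v => by rw [hb1, hb0], ?_, fun x v => (hb1 x v).symm⟩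
  intro v y
  show M.fk (jm + 1) (a - 1 - jm) v y = _
  rw [hI.fk _ _ _ _ (by omega), hmid]
  have e1 : d * (a - 1 - jm) + 1 = 3 * c.k := by
    have e2 : a = (a - 1 - jm) + (jm + 1) := by omega
    have e3 : d * a = d * (a - 1 - jm) + d * (jm + 1) := by
      rw [← Nat.mul_add]
      congr 1
    omega
  rw [e1]

theorem rho_mul {a b : ℝ} (ha : 0 ≤ a) (hb : 0 ≤ b) : a * rho a b * b = min a b ^ 2 := by
  unfold rho
  rcases eq_or_lt_of_le ha with h | h
  · rw [← h]
    simp [hb]
  rcases eq_or_lt_of_le hb with h' | h'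
  · rw [← h']
    simp [ha]
  rcases le_total a b with hab | hab
  · have h1 : a / b ≤ b / a := by
      rw [div_le_div_iff₀ h' h]
      nlinarith
    rw [min_eq_left h1, min_eq_left hab]
    field_simp
  · have h1 : b / a ≤ a / b := by
      rw [div_le_div_iff₀ h h']
      nlinarith
    rw [min_eq_right h1, min_eq_right hab]
    field_simp

theorem rho_nonneg {a b : ℝ} (ha : 0 ≤ a) (hb : 0 ≤ b) : 0 ≤ rho a b :=
  le_min (div_nonneg ha hb) (div_nonneg hb ha)

theorem rho_mul_le {a b : ℝ} (ha : 0 ≤ a) (hb : 0 ≤ b) : rho a b * b ≤ a := by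
  unfold rho
  rcases eq_or_lt_of_le hb with h' | h'
  · rw [← h']
    simp [ha]
  · calc min (a / b) (b / a) * b ≤ a / b * b :=
          mul_le_mul_of_nonneg_right (min_le_left _ _) hb
      _ = a := by field_simp

end Pool.Agent.Lib.MP_688fd0_co.TF.H54
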